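import Pool.Agent.Lib.MP_4d8c35_co.Low.Cnt

/-! Graphs that are stable under the deletion of three vertices, with `n / 2 - α = o (√ n)`. -/

set_option autoImplicit false

namespace Pool.Agent.Results.MP_4d8c35_co.BelowRoot

open Pool.Agent.Lib.MP_4d8c35_co.Low Fintype

/-- There are arbitrarily large finite graphs whose independence number `α` is not lowered by the
deletion of any three vertices and with `n / 2 - α ≤ 19 √ (n log log n / log n)`. -/
theorem result (N : ℕ) : ∃ (V : Type) (_ : Fintype V) (G : SimpleGraph V), N ≤ Fintype.card V ∧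
    (∀ S : Finset V, S.card = 3 → G.indepNum ≤ (G.induce (S : Set V)ᶜ).indepNum) ∧
    (Fintype.card V : ℝ) / 2 - G.indepNum ≤ 19 * √(Fintype.card V *
      Real.log (Real.log (Fintype.card V)) / Real.log (Fintype.card V)) := by
  obtain ⟨L, hL, hN⟩ : ∃ L, 0 < L ∧ N ≤ L := ⟨N + 1, by omega, by omega⟩
  have : NeZero (4 * L) := ⟨by omega⟩
  let p0 : Pair (4 * L) := ⟨(⟨0, by omega⟩, ⟨1, by omega⟩), Fin.mk_lt_mk.2 one_pos⟩
  have hB : Cut (Function.swap (ar (L := L) p0 true)) (en p0 true) (en p0 false)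
      (Function.swap (dm true)) := by
    have e : Function.swap (dm (s := 4 * L) (L := L) true) = dm false := by
      ext x w
      simp only [dm, Function.swap, and_comm, Bool.not_true, Bool.not_false]
    rw [ar_swap, e]
    exact cut
  obtain ⟨V, _, G, hc, hS, hα⟩ := pack (path (p0 := p0) hL) cut hB
  have h1 := card_ln_le (4 * L) L
  have h2 := card_ln_ge L hL
  obtain ⟨h3, h4⟩ := card_nd p0 L
  have h5 := card_tm (4 * L) L
  have h6 : 4 * L ≤ card (Tm (4 * L) L) := h5 ▸ Nat.le_self_pow (by omega) _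
  refine ⟨V, inferInstance, G, by omega, hS, le_trans ?_ (est hL h5 ?_ ?_ (by omega))⟩
  · have h7 : ((card (Nd (4 * L) L) + 1 : ℕ) : ℝ) ≤ _ := Nat.cast_le.2 hα
    rw [hc]
    push_cast at h7 ⊢
    exact (sub_le_sub_left h7 _).trans (le_of_eq (by ring))
  · have := Nat.mul_le_mul_left L h2
    nlinarith
  · have := Nat.mul_le_mul_left L h1
    nlinarith

end Pool.Agent.Results.MP_4d8c35_co.BelowRoot
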