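import Pool.Agent.Lib.MP_4d8c35_co.Poly.Main

/-! Polynomial bound on the order of stable graphs in terms of the deficiency `n - 2 α`. -/

namespace Pool.Agent.Results.MP_4d8c35_co.PolyStable

/-- Let `k ≥ 3 l + 3` and let `G` be a finite graph on `n ≥ k` vertices such that deleting any `k`
vertices lowers the independence number `α` by at most `l`. Then `n ≤ (n - 2 α + 2 l) ^ 5`. -/
theorem result {V : Type*} [Fintype V] (G : SimpleGraph V) (k l : ℕ) (hkl : 3 * l + 3 ≤ k)
    (hn : k ≤ Fintype.card V)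
    (hst : ∀ S : Finset V, S.card = k →
      G.indepNum ≤ (G.induce (S : Set V)ᶜ).indepNum + l) :
    (Fintype.card V : ℤ) ≤ ((Fintype.card V : ℤ) - 2 * (G.indepNum : ℤ) + 2 * (l : ℤ)) ^ 5 := by
  classical
  have h := Pool.Agent.Lib.MP_4d8c35_co.Poly.stable_bound G k l hkl hn hst
  rcases Nat.lt_or_ge (Fintype.card V + 2 * l) (2 * G.indepNum) with h1 | h1
  · rw [Nat.sub_eq_zero_of_le h1.le] at h
    omega
  · have h2 : ((Fintype.card V + 2 * l - 2 * G.indepNum : ℕ) : ℤ) =
        (Fintype.card V : ℤ) - 2 * (G.indepNum : ℤ) + 2 * (l : ℤ) := by omega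
    rw [← h2]
    exact_mod_cast h

end Pool.Agent.Results.MP_4d8c35_co.PolyStable
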