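import Pool.Agent.Lib.MP_4d8c35_co.Slot.Code

/-! For every `k`, arbitrarily large `(k, 0)`-stable graphs with `α = n / 2 - O(√n)`. -/

namespace Pool.Agent.Results.MP_4d8c35_co.RootAllK

/-- For every `k ≥ 1` there are arbitrarily large finite graphs in which deleting any `k` vertices
leaves the independence number `α` unchanged and `(n - 2 α) ^ 2 ≤ 2 k ^ 2 (2 k ^ 3 + 3 k ^ 2) ^ (2 k) n`. -/
theorem result (k n₀ : ℕ) (hk : 1 ≤ k) :
    ∃ (V : Type) (_ : Fintype V) (G : SimpleGraph V), n₀ ≤ Fintype.card V ∧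
      (∀ S : Finset V, S.card = k → (G.induce (S : Set V)ᶜ).indepNum = G.indepNum) ∧
      ((Fintype.card V : ℤ) - 2 * (G.indepNum : ℤ)) ^ 2 ≤
        2 * (k : ℤ) ^ 2 * (2 * (k : ℤ) ^ 3 + 3 * (k : ℤ) ^ 2) ^ (2 * k) * (Fintype.card V : ℤ) := by
  classical
  obtain ⟨q, hq, hp⟩ := Nat.exists_infinite_primes (max n₀ (2 * k ^ 3 + 3 * k ^ 2))
  have : Fact q.Prime := ⟨hp⟩
  obtain ⟨V, _, G, hV, hG⟩ :=
    Pool.Agent.Lib.MP_4d8c35_co.Slot.graphs k q hk ((le_max_right _ _).trans hq)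
  have ha : G.indepNum = q ^ (2 * k) + k := by
    have h0 := hG ∅ (by simp)
    rw [← h0]
    refine le_antisymm ?_ ?_
    · obtain ⟨s, h1, h2⟩ := G.exists_isNIndepSet_indepNum
      exact h2 ▸ Pool.Agent.Lib.MP_4d8c35_co.Poly.le_del
        (Pool.Agent.Lib.MP_4d8c35_co.Poly.ind_iff.1 h1) (Finset.disjoint_empty_right s)
    · obtain ⟨I, h1, h2, -⟩ := Pool.Agent.Lib.MP_4d8c35_co.Poly.ex_del G ∅
      exact h2 ▸ (Pool.Agent.Lib.MP_4d8c35_co.Poly.ind_iff.2 h1).card_le_indepNum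
  refine ⟨V, inferInstance, G, ?_, fun S hS => by rw [hG S hS.le, ha], ?_⟩
  · have := Nat.le_self_pow (show 2 * k ≠ 0 by omega) q
    have := (le_max_left _ _).trans hq
    omega
  · rw [hV, ha]
    push_cast
    have h1 : (1 : ℤ) ≤ k := by exact_mod_cast hk
    have h2 : (1 : ℤ) ≤ q := by exact_mod_cast hp.pos
    have h3 : (1 : ℤ) ≤ 2 * (k : ℤ) ^ 3 + 3 * (k : ℤ) ^ 2 := by nlinarith [one_le_pow₀ (n := 3) h1]
    generalize 2 * (k : ℤ) ^ 3 + 3 * (k : ℤ) ^ 2 = T at h3 ⊢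
    rw [mul_pow, pow_mul' T, pow_mul' (q : ℤ)]
    have h4 := one_le_pow₀ (n := k) h2
    have h5 := one_le_pow₀ (n := k) h3
    generalize (q : ℤ) ^ k = x at h4 ⊢
    generalize T ^ k = y at h5 ⊢
    have h6 : 1 ≤ y * x := one_le_mul_of_one_le_of_one_le h5 h4
    have h7 : 0 ≤ (k : ℤ) ^ 2 * (2 * (y * x) - 1) := mul_nonneg (by positivity) (by omega)
    have h8 : 0 ≤ (k : ℤ) ^ 3 * y ^ 3 * x := by positivity
    nlinarith

end Pool.Agent.Results.MP_4d8c35_co.RootAllK
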